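import Mathlib
import Pool.Agent.Lib.H43S.SL

/-!
# A semi-local bound for the fractional chromatic index of a linear hypergraph

The fractional chromatic index of every linear hypergraph is at most the maximum of
`|N[u] ∪ N[v]|` over the pairs of distinct vertices `u`, `v` lying in a common edge.
-/

namespace Pool.Agent.Results.MP_a75eec_co.AdjacentPairs

open Finset

variable {V : Type*} [DecidableEq V]

/-- A linear hypergraph (given by its finite set of edges): every edge has at least two
vertices and any two distinct edges share at most one vertex. -/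
def IsLinearHypergraph (H : Finset (Finset V)) : Prop :=
  (∀ e ∈ H, 2 ≤ e.card) ∧ ∀ e ∈ H, ∀ f ∈ H, e ≠ f → (e ∩ f).card ≤ 1

/-- `N[v]`, the union of the edges containing `v`. -/
def closedNbhd (H : Finset (Finset V)) (v : V) : Finset V :=
  (H.filter (fun e => v ∈ e)).biUnion id

/-- The ordered pairs of distinct vertices lying in a common edge. -/
def adjacentPairs [Fintype V] (H : Finset (Finset V)) : Finset (V × V) :=
  Finset.univ.filter (fun q => q.1 ≠ q.2 ∧ ∃ e ∈ H, q.1 ∈ e ∧ q.2 ∈ e)

/-- The maximum of `|N[u] ∪ N[v]|` over the adjacent pairs `u`, `v` (`0` if there is no edge). -/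
def maxPairNbhd [Fintype V] (H : Finset (Finset V)) : ℕ :=
  (adjacentPairs H).sup (fun q => (closedNbhd H q.1 ∪ closedNbhd H q.2).card)

/-- `M` is a matching of `H`: a set of pairwise disjoint edges of `H`. -/
def IsMatching (H M : Finset (Finset V)) : Prop :=
  M ⊆ H ∧ ∀ e ∈ M, ∀ f ∈ M, e ≠ f → Disjoint e f

/-- `y` is a fractional edge-colouring of `H`: a nonnegative weighting of the matchings of `H`
(sets of edges that are not matchings of `H` get weight `0`) in which every edge lies in
matchings of total weight at least `1`. -/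
def IsFracColouring (H : Finset (Finset V)) (y : Finset (Finset V) → ℝ) : Prop :=
  (∀ M, 0 ≤ y M) ∧ (∀ M, ¬ IsMatching H M → y M = 0) ∧
    ∀ e ∈ H, 1 ≤ ∑ M ∈ H.powerset.filter (fun M => e ∈ M), y M

/-- The total weight of a fractional edge-colouring. -/
def totalWeight (H : Finset (Finset V)) (y : Finset (Finset V) → ℝ) : ℝ :=
  ∑ M ∈ H.powerset, y M

/-- The fractional chromatic index: the infimum (it is attained) of the total weights of the
fractional edge-colourings. -/
noncomputable def fracChromaticIndex (H : Finset (Finset V)) : ℝ :=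
  sInf {t : ℝ | ∃ y, IsFracColouring H y ∧ totalWeight H y = t}

theorem result [Fintype V] (H : Finset (Finset V)) (hH : IsLinearHypergraph H) :
    (∃ y, IsFracColouring H y ∧ totalWeight H y ≤ (maxPairNbhd H : ℝ)) ∧
      fracChromaticIndex H ≤ (maxPairNbhd H : ℝ) := by
  classical
  have hB : ∀ e ∈ H, ∀ u ∈ e, ∀ v ∈ e, u ≠ v →
      ((Pool.Agent.Helper4.BF.nbhd H u ∪ Pool.Agent.Helper4.BF.nbhd H v).card : ℝ) ≤
        ((maxPairNbhd H : ℕ) : ℝ) := by
    intro e he u hu v hv huv
    have h1 : (u, v) ∈ adjacentPairs H := by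
      rw [adjacentPairs, mem_filter]
      exact ⟨mem_univ _, huv, e, he, hu, hv⟩
    have h2 := Finset.le_sup (f := fun q : V × V => (closedNbhd H q.1 ∪ closedNbhd H q.2).card) h1
    exact_mod_cast h2
  have hlin : Pool.Agent.Helper4.BF.IsLinear H := hH.2
  have hdual : Pool.Agent.Helper4.BF.Dual H ((maxPairNbhd H : ℕ) : ℝ) :=
    Pool.Agent.H43S.dual_semilocal _ H hlin hH.1 hB (Nat.cast_nonneg _)
  obtain ⟨y, hy0, hyM, hycov, hyw⟩ :=
    Pool.Agent.Helper4.BF.exists_colouring (Nat.cast_nonneg _) hdual
  have hy : IsFracColouring H y := by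
    refine ⟨hy0, fun M hM => ?_, hycov⟩
    by_contra hne
    exact hM (Pool.Agent.Helper4.BF.mem_matchings.1 (hyM M hne))
  refine ⟨⟨y, hy, hyw⟩, ?_⟩
  have hbdd : BddBelow {t : ℝ | ∃ y, IsFracColouring H y ∧ totalWeight H y = t} := by
    refine ⟨0, ?_⟩
    rintro t ⟨z, hz, rfl⟩
    exact Finset.sum_nonneg fun M _ => hz.1 M
  have hmem : totalWeight H y ∈ {t : ℝ | ∃ y, IsFracColouring H y ∧ totalWeight H y = t} :=
    ⟨y, hy, rfl⟩
  exact (csInf_le hbdd hmem).trans hyw

end Pool.Agent.Results.MP_a75eec_co.AdjacentPairs
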