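import Mathlib
import Pool.Agent.Lib.BFE.Y3

/-!
# The Berge-Füredi conjecture for linear hypergraphs with at most `(1 - ε) D(H)` edges of size two per vertex

For every `ε > 0` there is `D₀` such that every linear hypergraph `H` with `D(H) = max |N[v]| ≥ D₀`, in which
every vertex lies in at most `(1 - ε) D(H)` edges of size two, has a proper edge-colouring with `D(H)` colours.
In particular this holds for all linear hypergraphs with `D(H)` large and no edges of size two, and for all
linear hypergraphs with `D(H)` large and all degrees at most `(1 - ε) D(H)`.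
-/

namespace Pool.Agent.Results.MP_a75eec_co.FewTwoEdges

open Finset

/-- A linear hypergraph (given by its finite set of edges): every edge has at least two
vertices and any two distinct edges share at most one vertex. -/
def IsLinearHypergraph {V : Type} [DecidableEq V] (H : Finset (Finset V)) : Prop :=
  (∀ e ∈ H, 2 ≤ e.card) ∧ ∀ e ∈ H, ∀ f ∈ H, e ≠ f → (e ∩ f).card ≤ 1

/-- `N[v]`, the union of the edges containing `v`. -/
def closedNbhd {V : Type} [DecidableEq V] (H : Finset (Finset V)) (v : V) : Finset V :=
  (H.filter (fun e => v ∈ e)).biUnion id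

/-- `D(H)`, the maximum of `|N[v]|` over all vertices. -/
def maxNbhd {V : Type} [DecidableEq V] [Fintype V] (H : Finset (Finset V)) : ℕ :=
  Finset.univ.sup (fun v => (closedNbhd H v).card)

/-- the number of edges of size two containing `v` -/
def twoDegree {V : Type} [DecidableEq V] (H : Finset (Finset V)) (v : V) : ℕ :=
  (H.filter (fun e => v ∈ e ∧ e.card = 2)).card

/-- `H` has a proper edge-colouring with `k` colours: distinct edges with a common vertex get different
colours. -/
def EdgeColorable {V : Type} [DecidableEq V] (H : Finset (Finset V)) (k : ℕ) : Prop :=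
  ∃ c : Finset V → ℕ, (∀ e ∈ H, c e < k) ∧
    ∀ e ∈ H, ∀ f ∈ H, e ≠ f → (e ∩ f).Nonempty → c e ≠ c f

/-- The chromatic index: the least number of colours in a proper edge-colouring. -/
noncomputable def chromaticIndex {V : Type} [DecidableEq V] (H : Finset (Finset V)) : ℕ :=
  sInf {k | EdgeColorable H k}

theorem result :
    ∀ ε : ℝ, 0 < ε → ∃ D₀ : ℕ, ∀ (V : Type) [DecidableEq V] [Fintype V] (H : Finset (Finset V)),
      IsLinearHypergraph H → D₀ ≤ maxNbhd H →
      (∀ v, (twoDegree H v : ℝ) ≤ (1 - ε) * maxNbhd H) →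
      EdgeColorable H (maxNbhd H) ∧ chromaticIndex H ≤ maxNbhd H := by
  classical
  intro ε hε
  obtain ⟨D0, h⟩ := Pool.Agent.Lib.BFE.y3_final (ε / 2) (by linarith)
  refine ⟨D0, fun V _ _ H hH hD htwo => ?_⟩
  have hN : ∀ v, (Pool.Agent.Lib.BFE.nbhd H v).card ≤ maxNbhd H := fun v => by
    have h1 := Finset.le_sup (f := fun v => (closedNbhd H v).card) (mem_univ v)
    have h2 : Pool.Agent.Lib.BFE.nbhd H v = closedNbhd H v := by
      unfold Pool.Agent.Lib.BFE.nbhd closedNbhd
      ext x
      simp only [mem_biUnion, mem_filter]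
    rw [h2]
    exact h1
  have hdeg : ∀ v, ((H.filter fun e => v ∈ e).card : ℝ) ≤ (1 - ε / 2) * maxNbhd H := fun v => by
    have hvol := Pool.Agent.Lib.BFE.y3_vol (E := H) hH.2 (maxNbhd H) v (hN v)
    have hvol' : ∑ e ∈ H.filter (fun e => v ∈ e), (e.card - 1) ≤ maxNbhd H - 1 := by
      convert hvol using 3
    have h5 : ∑ e ∈ H.filter (fun e => v ∈ e), (if e.card = 2 then 1 else 2) ≤
        ∑ e ∈ H.filter (fun e => v ∈ e), (e.card - 1) := by
      refine Finset.sum_le_sum fun e he => ?_
      have h6 := hH.1 e (mem_filter.1 he).1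
      split_ifs with h7
      · omega
      · omega
    have h8 : ∑ e ∈ H.filter (fun e => v ∈ e), (if e.card = 2 then 1 else 2) + twoDegree H v =
        2 * (H.filter fun e => v ∈ e).card := by
      have h9 : twoDegree H v = ∑ e ∈ H.filter (fun e => v ∈ e), (if e.card = 2 then 1 else 0) := by
        rw [← Finset.card_filter, Finset.filter_filter]
        rfl
      rw [h9, ← Finset.sum_add_distrib, Finset.card_eq_sum_ones, Finset.mul_sum]
      refine Finset.sum_congr rfl fun e _ => ?_
      split_ifs <;> rfl
    have h10 : 2 * (H.filter fun e => v ∈ e).card ≤ maxNbhd H + twoDegree H v := by omega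
    have h11 : (2 : ℝ) * ((H.filter fun e => v ∈ e).card : ℝ) ≤ maxNbhd H + twoDegree H v := by
      exact_mod_cast h10
    have h12 := htwo v
    linarith
  obtain ⟨c, hc⟩ := h V H (maxNbhd H) hD hH.1 hH.2 hN fun v => by
    have := hdeg v
    convert this using 3
  have hcol : EdgeColorable H (maxNbhd H) := by
    refine ⟨fun e => (c e : ℕ), fun e _ => (c e).isLt, fun e he f hf hef hne heq => ?_⟩
    refine hc e he f hf hef ?_ (Fin.ext heq)
    rw [Finset.not_disjoint_iff]
    obtain ⟨x, hx⟩ := hne
    exact ⟨x, (mem_inter.1 hx).1, (mem_inter.1 hx).2⟩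
  exact ⟨hcol, Nat.sInf_le hcol⟩

end Pool.Agent.Results.MP_a75eec_co.FewTwoEdges
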