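import Mathlib
import Pool.Agent.Lib.Helper4.BF.Main

/-!
# The fractional Berge–Füredi inequality for linear hypergraphs with large edges

If `H` is a linear hypergraph all of whose edges have at least four vertices, or all of whose
edges have exactly three vertices, then the fractional chromatic index of `H` is at most
`D(H) = max_v |N[v]|`.
-/

namespace Pool.Agent.Results.MP_a75eec_co.FractionalLargeEdges

open Finset

variable {V : Type*} [DecidableEq V]

/-- A linear hypergraph (given by its finite set of edges): every edge has at least two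
vertices and any two distinct edges share at most one vertex. -/
def IsLinearHypergraph (H : Finset (Finset V)) : Prop :=
  (∀ e ∈ H, 2 ≤ e.card) ∧ ∀ e ∈ H, ∀ f ∈ H, e ≠ f → (e ∩ f).card ≤ 1

/-- `N[v]`, the union of the edges containing `v`. -/
def closedNbhd (H : Finset (Finset V)) (v : V) : Finset V :=
  (H.filter (fun e => v ∈ e)).biUnion id

/-- `D(H) = max_v |N[v]|`. -/
def maxNbhd [Fintype V] (H : Finset (Finset V)) : ℕ :=
  Finset.univ.sup (fun v => (closedNbhd H v).card)

/-- `M` is a matching of `H`: a set of pairwise disjoint edges of `H`. -/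
def IsMatching (H M : Finset (Finset V)) : Prop :=
  M ⊆ H ∧ ∀ e ∈ M, ∀ f ∈ M, e ≠ f → Disjoint e f

/-- `y` is a fractional edge-colouring of `H`: a nonnegative weighting of the matchings of `H`
(sets of edges that are not matchings of `H` get weight `0`) in which every edge lies in
matchings of total weight at least `1`. -/
def IsFracColouring (H : Finset (Finset V)) (y : Finset (Finset V) → ℝ) : Prop :=
  (∀ M, 0 ≤ y M) ∧ (∀ M, ¬ IsMatching H M → y M = 0) ∧
    ∀ e ∈ H, 1 ≤ ∑ M ∈ H.powerset.filter (fun M => e ∈ M), y M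

/-- The total weight of a fractional edge-colouring. -/
def totalWeight (H : Finset (Finset V)) (y : Finset (Finset V) → ℝ) : ℝ :=
  ∑ M ∈ H.powerset, y M

/-- The fractional chromatic index: the infimum (it is attained) of the total weights of the
fractional edge-colourings. -/
noncomputable def fracChromaticIndex (H : Finset (Finset V)) : ℝ :=
  sInf {t : ℝ | ∃ y, IsFracColouring H y ∧ totalWeight H y = t}

theorem result [Fintype V] (H : Finset (Finset V)) (hH : IsLinearHypergraph H)
    (hsize : (∀ e ∈ H, 4 ≤ e.card) ∨ (∀ e ∈ H, e.card = 3)) :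
    (∃ y, IsFracColouring H y ∧ totalWeight H y ≤ (maxNbhd H : ℝ)) ∧
      fracChromaticIndex H ≤ (maxNbhd H : ℝ) := by
  classical
  have hD : ∀ v, (Pool.Agent.Helper4.BF.nbhd H v).card ≤ maxNbhd H := fun v =>
    Finset.le_sup (f := fun v => (closedNbhd H v).card) (Finset.mem_univ v)
  have hlin : Pool.Agent.Helper4.BF.IsLinear H := hH.2
  have hdual : Pool.Agent.Helper4.BF.Dual H ((maxNbhd H : ℕ) : ℝ) := by
    rcases hsize with h | h
    · exact Pool.Agent.Helper4.BF.dual_four _ H hlin h hD
    · exact Pool.Agent.Helper4.BF.dual_three _ H hlin h hD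
  obtain ⟨y, hy0, hyM, hycov, hyw⟩ :=
    Pool.Agent.Helper4.BF.exists_colouring (Nat.cast_nonneg _) hdual
  have hy : IsFracColouring H y := by
    refine ⟨hy0, fun M hM => ?_, hycov⟩
    by_contra hne
    exact hM (Pool.Agent.Helper4.BF.mem_matchings.1 (hyM M hne))
  refine ⟨⟨y, hy, hyw⟩, ?_⟩
  have hbdd : BddBelow {t : ℝ | ∃ y, IsFracColouring H y ∧ totalWeight H y = t} := by
    refine ⟨0, ?_⟩
    rintro t ⟨z, hz, rfl⟩
    exact Finset.sum_nonneg fun M _ => hz.1 M
  have hmem : totalWeight H y ∈ {t : ℝ | ∃ y, IsFracColouring H y ∧ totalWeight H y = t} :=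
    ⟨y, hy, rfl⟩
  exact (csInf_le hbdd hmem).trans hyw

end Pool.Agent.Results.MP_a75eec_co.FractionalLargeEdges
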